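import Mathlib
import Pool.Agent.Helper18.SD.Fin

set_option autoImplicit false
open MeasureTheory Real Set Filter Topology

namespace Pool.Agent.Results.MP_9ee088_an.WeakDriving

/-- The standard map driven by the circle map `θ ↦ K θ`, any `K ≥ 2`, through an arbitrarily small
coupling `ε`: up to a set of measure `C β`, `β = |a| ^ (-1 / 10) + log (1 / ε) / a ^ 2`, the map is
ergodic and hyperbolic, and all correlations are at most `C β` for large times. -/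
theorem result : ∃ C : ℝ, 0 < C ∧ ∀ a : ℝ, 1 ≤ |a| → ∀ ε : ℝ, 0 < ε → ε ≤ 1 / 4 →
    ∀ K : ℕ, 2 ≤ K →
    ∀ F : UnitAddCircle × (UnitAddCircle × UnitAddCircle) →
      UnitAddCircle × (UnitAddCircle × UnitAddCircle),
    (∀ θ x y : ℝ, F ((θ : UnitAddCircle), (x : UnitAddCircle), (y : UnitAddCircle)) =
      (((K * θ : ℝ) : UnitAddCircle), ((2 * x - y + a * Real.sin (2 * π * x) +
        ε * Real.sin (2 * π * θ) : ℝ) : UnitAddCircle), (x : UnitAddCircle))) →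
    (∀ f g : UnitAddCircle × (UnitAddCircle × UnitAddCircle) → ℝ, Measurable f → Measurable g →
      (∀ q, |f q| ≤ 1) → (∀ q, |g q| ≤ 1) → ∃ n₀ : ℕ, ∀ n, n₀ ≤ n →
      |(∫ q, f q * g (F^[n] q)) - (∫ q, f q) * (∫ q, g q)| ≤
        C * (|a| ^ (-(1:ℝ) / 10) + Real.log (1 / ε) / |a| ^ 2)) ∧
    ∃ E : Set (UnitAddCircle × (UnitAddCircle × UnitAddCircle)), MeasurableSet E ∧ F ⁻¹' E = E ∧
      1 - C * (|a| ^ (-(1:ℝ) / 10) + Real.log (1 / ε) / |a| ^ 2) ≤ volume.real E ∧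
      (∀ A : Set (UnitAddCircle × (UnitAddCircle × UnitAddCircle)), MeasurableSet A →
        F ⁻¹' A = A → volume (A ∩ E) = 0 ∨ volume (E \ A) = 0) ∧
      ∃ lam : ℝ, |lam - Real.log (π * |a|)| ≤ C * Real.log |a| *
          Real.sqrt (|a| ^ (-(1:ℝ) / 10) + Real.log (1 / ε) / |a| ^ 2) ∧
        ∀ᵐ z : ℝ × (ℝ × ℝ), ((z.1 : UnitAddCircle), ((z.2.1 : UnitAddCircle),
            (z.2.2 : UnitAddCircle))) ∈ E →
          Tendsto (fun n : ℕ => Real.log ‖fderiv ℝ (fun p : ℝ × ℝ =>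
            ((fun q : ℝ × (ℝ × ℝ) => (K * q.1, (2 * q.2.1 - q.2.2 + a * Real.sin (2 * π * q.2.1) +
              ε * Real.sin (2 * π * q.1), q.2.1)))^[n] (z.1, p)).2) z.2‖ / n) atTop (𝓝 lam) :=
  Pool.Agent.Helper18.SD.main

end Pool.Agent.Results.MP_9ee088_an.WeakDriving
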